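import Mathlib
import Pool.Agent.Q256.EC.Stm

set_option autoImplicit false

namespace Pool.Agent.Q124.EC_POL

open MvPolynomial
open Pool.Agent.Q256.EC

theorem pol_le {K : Type} [NormedField K] {ι : Type} [Fintype ι] (P : MvPolynomial ι K) (k : ℕ)
    (hP : P ∈ idealOfVars ι K ^ k) : ∃ C : ℝ, 0 ≤ C ∧ ∀ x : ι → K, ‖x‖ ≤ 1 →
      ‖eval x P‖ ≤ C * ‖x‖ ^ k := by
  refine ⟨∑ κ ∈ P.support, ‖coeff κ P‖, Finset.sum_nonneg fun _ _ => norm_nonneg _,
    fun x hx => ?_⟩
  rw [eval_eq, Finset.sum_mul]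
  refine (norm_sum_le _ _).trans (Finset.sum_le_sum fun κ hκ => ?_)
  rw [norm_mul]
  refine mul_le_mul_of_nonneg_left ?_ (norm_nonneg _)
  rw [norm_prod]
  calc ∏ i ∈ κ.support, ‖x i ^ κ i‖ ≤ ∏ i ∈ κ.support, ‖x‖ ^ κ i := by
        refine Finset.prod_le_prod (fun _ _ => norm_nonneg _) fun i _ => ?_
        rw [norm_pow]
        exact pow_le_pow_left₀ (norm_nonneg _) (norm_le_pi_norm x i) _
    _ = ‖x‖ ^ κ.degree := by
        rw [Finset.prod_pow_eq_pow_sum]
        rfl
    _ ≤ ‖x‖ ^ k := pow_le_pow_of_le_one (norm_nonneg _) hx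
        ((mem_pow_idealOfVars_iff k P).1 hP κ hκ)

theorem pol : S_POL := by
  intro K _ ι _ P
  refine ⟨fun k hk => pol_le P k hk, ?_⟩
  induction P using MvPolynomial.induction_on with
  | C a => exact ⟨0, le_rfl, fun x y _ _ => by simp⟩
  | add p q hp hq =>
    obtain ⟨C, hC, h⟩ := hp
    obtain ⟨D, hD, h'⟩ := hq
    refine ⟨C + D, add_nonneg hC hD, fun x y hx hy => ?_⟩
    have e : eval x (p + q) - eval y (p + q) = (eval x p - eval y p) + (eval x q - eval y q) := by
      rw [map_add, map_add]; ring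
    rw [e, add_mul]
    exact (norm_add_le _ _).trans (add_le_add (h x y hx hy) (h' x y hx hy))
  | mul_X p i hp =>
    obtain ⟨C, hC, h⟩ := hp
    obtain ⟨D, hD, h'⟩ := pol_le p 0 (by rw [pow_zero, Ideal.one_eq_top]; trivial)
    refine ⟨C + D, add_nonneg hC hD, fun x y hx hy => ?_⟩
    have e : eval x (p * X i) - eval y (p * X i) =
        (eval x p - eval y p) * x i + eval y p * (x i - y i) := by
      rw [map_mul, map_mul, eval_X, eval_X]; ring
    rw [e, add_mul]
    refine (norm_add_le _ _).trans (add_le_add ?_ ?_)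
    · rw [norm_mul]
      calc ‖eval x p - eval y p‖ * ‖x i‖ ≤ ‖eval x p - eval y p‖ * 1 :=
            mul_le_mul_of_nonneg_left ((norm_le_pi_norm x i).trans hx) (norm_nonneg _)
        _ ≤ C * ‖x - y‖ := by rw [mul_one]; exact h x y hx hy
    · rw [norm_mul]
      have h1 := h' y hy
      rw [pow_zero, mul_one] at h1
      exact mul_le_mul h1 (norm_le_pi_norm (x - y) i) (norm_nonneg _) hD

end Pool.Agent.Q124.EC_POL
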