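import Mathlib
import Pool.Agent.Q256.EC.Stm

set_option autoImplicit false

namespace Pool.Agent.Q124.EC_RAT

open MvPolynomial
open Pool.Agent.Q256.EC

theorem mem_iff {K : Type} [Field K] {ι : Type} (f : MvPolynomial ι K) :
    f ∈ idealOfVars ι K ↔ constantCoeff f = 0 := by
  have h := mem_pow_idealOfVars_iff' 1 f
  rw [pow_one] at h
  rw [h]
  constructor
  · intro h1
    exact h1 0 (by simp)
  · intro h1 x hx
    have : x = 0 := (Finsupp.degree_eq_zero_iff x).1 (by omega)
    rw [this]
    exact h1

theorem rat : S_RAT := by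
  intro K _ ι _ _ g u hg hu k
  set c := constantCoeff u with hc
  set v' : MvPolynomial ι K := 1 - C c⁻¹ * u with hv'
  have hv'm : v' ∈ idealOfVars ι K := by
    rw [mem_iff, hv', map_sub, map_mul, map_one, constantCoeff_C, ← hc, inv_mul_cancel₀ hu, sub_self]
  have hgm : g ∈ idealOfVars ι K := (mem_iff g).2 hg
  set S : MvPolynomial ι K := ∑ j ∈ Finset.range (k + 1), v' ^ j with hS
  have hgeom : (1 - v') * S = 1 - v' ^ (k + 1) := by
    rw [hS, mul_comm]
    have := geom_sum_mul v' (k + 1)
    linear_combination -this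
  have hcc : (C c : MvPolynomial ι K) * C c⁻¹ = 1 := by
    rw [← C_mul, mul_inv_cancel₀ hu, C_1]
  have hu' : C c⁻¹ * u = 1 - v' := by rw [hv']; ring
  have hS1 : S - 1 ∈ idealOfVars ι K := by
    rw [hS, Finset.sum_range_succ', pow_zero, add_sub_cancel_right]
    refine Ideal.sum_mem _ fun j _ => ?_
    rw [pow_succ]
    exact Ideal.mul_mem_left _ _ hv'm
  set L : MvPolynomial ι K := ∑ j, C (coeff (Finsupp.single j 1) g) * X j with hL
  have hgL : g - L ∈ idealOfVars ι K ^ 2 := by
    rw [mem_pow_idealOfVars_iff']
    intro x hx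
    rw [coeff_sub, hL, coeff_sum]
    rcases Nat.lt_or_ge x.degree 1 with h0 | h0
    · have : x = 0 := (Finsupp.degree_eq_zero_iff x).1 (by omega)
      rw [this]
      have e1 : coeff 0 g = 0 := hg
      rw [e1, zero_sub, neg_eq_zero]
      refine Finset.sum_eq_zero fun j _ => ?_
      rw [coeff_C_mul, coeff_zero_X, mul_zero]
    · have hd : x.degree = 1 := by omega
      have hne : x ≠ 0 := by
        rintro rfl
        simp at hd
      obtain ⟨i, hi⟩ := Finsupp.support_nonempty_iff.2 hne
      have h1 : Finsupp.single i 1 ≤ x := by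
        rw [Finsupp.single_le_iff]
        exact Nat.one_le_iff_ne_zero.2 (Finsupp.mem_support_iff.1 hi)
      obtain ⟨z, hz⟩ := le_iff_exists_add.1 h1
      have h2 : z.degree = 0 := by
        rw [hz, map_add, Finsupp.degree_single] at hd
        omega
      rw [(Finsupp.degree_eq_zero_iff z).1 h2, add_zero] at hz
      rw [hz]
      have e1 : ∑ j, coeff (Finsupp.single i 1) (C (coeff (Finsupp.single j 1) g) * X j) =
          coeff (Finsupp.single i 1) g := by
        rw [Finset.sum_eq_single i]
        · rw [coeff_C_mul, coeff_X, if_pos rfl, mul_one]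
        · intro j _ hj
          rw [coeff_C_mul, coeff_X, if_neg, mul_zero]
          intro h
          exact hj (Finsupp.single_left_injective one_ne_zero h)
        · intro h
          exact absurd (Finset.mem_univ i) h
      rw [e1, sub_self]
  refine ⟨g * S - L, ?_, ?_⟩
  · have e : g * S - L = g * (S - 1) + (g - L) := by ring
    rw [e]
    refine Ideal.add_mem _ ?_ hgL
    rw [pow_two]
    exact Ideal.mul_mem_mul hgm hS1
  · have e : C c * g - u * (L + (g * S - L)) = C c * g * v' ^ (k + 1) := by
      have e1 : u = C c * (1 - v') := by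
        rw [← hu', ← mul_assoc, hcc, one_mul]
      calc C c * g - u * (L + (g * S - L)) = C c * g - u * (g * S) := by ring
        _ = C c * g - C c * (1 - v') * (g * S) := by rw [← e1]
        _ = C c * g - C c * g * ((1 - v') * S) := by ring
        _ = C c * g * v' ^ (k + 1) := by rw [hgeom]; ring
    rw [e, pow_succ, ← mul_assoc]
    refine Ideal.mul_mem_right _ _ (Ideal.mul_mem_left _ _ ?_)
    exact Ideal.pow_mem_pow hv'm k

end Pool.Agent.Q124.EC_RAT
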