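import Mathlib
import Pool.Agent.Q256.EC.Stm

set_option autoImplicit false

namespace Pool.Agent.Q124.EC_WEM

open Pool.Agent.Q256.EC

theorem wem (hE : S_EXM) : S_WEM := by
  intro K _
  refine ⟨?_, ?_, ?_, ?_, ?_, ?_⟩
  · rintro ρ a b ⟨e, he, C, hC⟩ ⟨f, hf, D, hD⟩
    refine ⟨e + f, Submodule.add_mem _ he hf, C + D, fun n => ?_⟩
    have h1 : a n + b n - (e + f) n = (a n - e n) + (b n - f n) := by
      simp only [Pi.add_apply]; ring
    rw [h1, add_mul]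
    exact (norm_add_le _ _).trans (add_le_add (hC n) (hD n))
  · rintro ρ c a ⟨e, he, C, hC⟩
    refine ⟨c • e, Submodule.smul_mem _ c he, ‖c‖ * C, fun n => ?_⟩
    have h1 : c * a n - (c • e) n = c * (a n - e n) := by
      simp only [Pi.smul_apply, smul_eq_mul]; ring
    rw [h1, norm_mul, mul_assoc]
    exact mul_le_mul_of_nonneg_left (hC n) (norm_nonneg _)
  · rintro ρ ρ' a h0 h1 ⟨e, he, C, hC⟩
    refine ⟨e, he, |C|, fun n => ?_⟩
    have h2 : ρ ^ n ≤ ρ' ^ n := pow_le_pow_left₀ h0 h1 n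
    have h3 : 0 ≤ ρ ^ n := pow_nonneg h0 n
    calc ‖a n - e n‖ ≤ C * ρ ^ n := hC n
      _ ≤ |C| * ρ ^ n := mul_le_mul_of_nonneg_right (le_abs_self C) h3
      _ ≤ |C| * ρ' ^ n := mul_le_mul_of_nonneg_left h2 (abs_nonneg _)
  · intro ρ c
    refine ⟨fun _ => c, (hE K 0 0 (Submodule.zero_mem _) (Submodule.zero_mem _)).2.2 c, 0,
      fun n => ?_⟩
    simp
  · intro ρ C a h
    refine ⟨0, Submodule.zero_mem _, C, fun n => ?_⟩
    simpa using h n
  · rintro ρ ρ' σ σ' τ A B a b h0 h0' hσ h1 h2 h3 ha hb ⟨e, he, C, hC⟩ ⟨f, hf, D, hD⟩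
    refine ⟨fun n => e n * f n, (hE K e f he hf).1, |A| * |D| + |C| * (|B| + |D|), fun n => ?_⟩
    have hσ' : 0 ≤ σ' := h0'.trans h1
    have hτ : 0 ≤ τ := (mul_nonneg hσ h0').trans h2
    have ea : a n * b n - e n * f n = a n * (b n - f n) + (a n - e n) * f n := by ring
    have k1 : ‖a n‖ ≤ |A| * σ ^ n :=
      (ha n).trans (mul_le_mul_of_nonneg_right (le_abs_self A) (pow_nonneg hσ n))
    have k2 : ‖b n - f n‖ ≤ |D| * ρ' ^ n :=
      (hD n).trans (mul_le_mul_of_nonneg_right (le_abs_self D) (pow_nonneg h0' n))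
    have k3 : ‖a n - e n‖ ≤ |C| * ρ ^ n :=
      (hC n).trans (mul_le_mul_of_nonneg_right (le_abs_self C) (pow_nonneg h0 n))
    have k4 : ‖b n‖ ≤ |B| * σ' ^ n :=
      (hb n).trans (mul_le_mul_of_nonneg_right (le_abs_self B) (pow_nonneg hσ' n))
    have k5 : ‖f n‖ ≤ (|B| + |D|) * σ' ^ n := by
      have e1 : f n = b n - (b n - f n) := by ring
      have e2 : ρ' ^ n ≤ σ' ^ n := pow_le_pow_left₀ h0' h1 n
      calc ‖f n‖ = ‖b n - (b n - f n)‖ := by rw [← e1]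
        _ ≤ ‖b n‖ + ‖b n - f n‖ := norm_sub_le _ _
        _ ≤ |B| * σ' ^ n + |D| * ρ' ^ n := add_le_add k4 k2
        _ ≤ |B| * σ' ^ n + |D| * σ' ^ n := by
            have := mul_le_mul_of_nonneg_left e2 (abs_nonneg D)
            linarith
        _ = (|B| + |D|) * σ' ^ n := by ring
    have m1 : ‖a n * (b n - f n)‖ ≤ |A| * |D| * τ ^ n := by
      rw [norm_mul]
      calc ‖a n‖ * ‖b n - f n‖ ≤ (|A| * σ ^ n) * (|D| * ρ' ^ n) :=
            mul_le_mul k1 k2 (norm_nonneg _) (mul_nonneg (abs_nonneg _) (pow_nonneg hσ n))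
        _ = |A| * |D| * (σ * ρ') ^ n := by rw [mul_pow]; ring
        _ ≤ |A| * |D| * τ ^ n := mul_le_mul_of_nonneg_left
            (pow_le_pow_left₀ (mul_nonneg hσ h0') h2 n)
            (mul_nonneg (abs_nonneg _) (abs_nonneg _))
    have m2 : ‖(a n - e n) * f n‖ ≤ |C| * (|B| + |D|) * τ ^ n := by
      rw [norm_mul]
      calc ‖a n - e n‖ * ‖f n‖ ≤ (|C| * ρ ^ n) * ((|B| + |D|) * σ' ^ n) :=
            mul_le_mul k3 k5 (norm_nonneg _) (mul_nonneg (abs_nonneg _) (pow_nonneg h0 n))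
        _ = |C| * (|B| + |D|) * (ρ * σ') ^ n := by rw [mul_pow]; ring
        _ ≤ |C| * (|B| + |D|) * τ ^ n := mul_le_mul_of_nonneg_left
            (pow_le_pow_left₀ (mul_nonneg h0 hσ') h3 n)
            (mul_nonneg (abs_nonneg _) (add_nonneg (abs_nonneg _) (abs_nonneg _)))
    show ‖a n * b n - e n * f n‖ ≤ _
    rw [ea, add_mul]
    exact (norm_add_le _ _).trans (add_le_add m1 m2)

end Pool.Agent.Q124.EC_WEM
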