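import Mathlib
import Pool.Agent.Q256.EC.Stm

set_option autoImplicit false

namespace Pool.Agent.Q124.EC_WEV

open MvPolynomial
open Pool.Agent.Q256.EC

theorem eval_sum {K : Type} [Field K] {ι : Type} (x : ι → K) (G : MvPolynomial ι K) :
    eval x G = ∑ κ ∈ G.support, coeff κ G * eval x (monomial κ 1) := by
  conv_lhs => rw [G.as_sum]
  rw [map_sum]
  refine Finset.sum_congr rfl fun κ _ => ?_
  rw [eval_monomial, eval_monomial, one_mul]

theorem we_sum {K : Type} [NormedField K] (hW : S_WEM) {α : Type} (ρ : ℝ) (S : Finset α)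
    (f : α → ℕ → K) (h : ∀ i ∈ S, We ρ (f i)) : We ρ (fun n => ∑ i ∈ S, f i n) := by
  classical
  induction S using Finset.induction_on with
  | empty =>
    have := (hW K).2.2.2.1 ρ 0
    simpa using this
  | insert a S ha ih =>
    have h1 := (hW K).1 ρ (f a) (fun n => ∑ i ∈ S, f i n) (h a (Finset.mem_insert_self _ _))
      (ih fun i hi => h i (Finset.mem_insert_of_mem hi))
    have e : (fun n => ∑ i ∈ insert a S, f i n) = fun n => f a n + ∑ i ∈ S, f i n := by
      funext n
      rw [Finset.sum_insert ha]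
    rw [e]
    exact h1

theorem wev (hW : S_WEM) : S_WEV := by
  intro K _ ι _ σ C k w hσ hσ1 hk hw hwe G
  classical
  have mono : ∀ (d : ℕ) (κ : ι →₀ ℕ), κ.degree = d + 1 →
      (∃ C' : ℝ, ∀ n, ‖eval (w n) (monomial κ (1 : K))‖ ≤ C' * (σ ^ (d + 1)) ^ n) ∧
      We (σ ^ (k + d)) (fun n => eval (w n) (monomial κ (1 : K))) := by
    intro d
    induction d with
    | zero =>
      intro κ hκ
      obtain ⟨i, rfl⟩ : ∃ i, κ = Finsupp.single i 1 := by
        have hne : κ ≠ 0 := by
          rintro rfl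
          simp at hκ
        obtain ⟨i, hi⟩ := Finsupp.support_nonempty_iff.2 hne
        refine ⟨i, ?_⟩
        have h1 : Finsupp.single i 1 ≤ κ := by
          rw [Finsupp.single_le_iff]
          exact Nat.one_le_iff_ne_zero.2 (Finsupp.mem_support_iff.1 hi)
        obtain ⟨c, hc⟩ := le_iff_exists_add.1 h1
        have h2 : c.degree = 0 := by
          rw [hc, map_add, Finsupp.degree_single] at hκ
          omega
        rw [hc, (Finsupp.degree_eq_zero_iff c).1 h2, add_zero]
      have e : ∀ n, eval (w n) (monomial (Finsupp.single i 1) (1 : K)) = w n i := by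
        intro n
        have : (monomial (Finsupp.single i 1) (1 : K) : MvPolynomial ι K) = X i := rfl
        rw [this, eval_X]
      refine ⟨⟨C, fun n => ?_⟩, ?_⟩
      · rw [e, zero_add, pow_one]
        exact (norm_le_pi_norm (w n) i).trans (hw n)
      · simp only [e, add_zero]
        exact hwe i
    | succ d ih =>
      intro κ hκ
      have hne : κ ≠ 0 := by
        rintro rfl
        simp at hκ
      obtain ⟨i, hi⟩ := Finsupp.support_nonempty_iff.2 hne
      have h1 : Finsupp.single i 1 ≤ κ := by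
        rw [Finsupp.single_le_iff]
        exact Nat.one_le_iff_ne_zero.2 (Finsupp.mem_support_iff.1 hi)
      obtain ⟨c, hc⟩ := le_iff_exists_add.1 h1
      have h2 : c.degree = d + 1 := by
        rw [hc, map_add, Finsupp.degree_single] at hκ
        omega
      obtain ⟨⟨C', hC'⟩, hWe⟩ := ih c h2
      have e : ∀ n, eval (w n) (monomial κ (1 : K)) = w n i * eval (w n) (monomial c (1 : K)) := by
        intro n
        rw [hc, monomial_single_add, pow_one, map_mul, eval_X]
      have ha : ∀ n, ‖w n i‖ ≤ C * σ ^ n := fun n => (norm_le_pi_norm (w n) i).trans (hw n)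
      refine ⟨⟨C * C', fun n => ?_⟩, ?_⟩
      · rw [e, norm_mul]
        calc ‖w n i‖ * ‖eval (w n) (monomial c (1 : K))‖ ≤ (C * σ ^ n) * (C' * (σ ^ (d + 1)) ^ n) :=
              mul_le_mul (ha n) (hC' n) (norm_nonneg _) ((norm_nonneg _).trans (ha n))
          _ = C * C' * (σ ^ (d + 1 + 1)) ^ n := by
              rw [pow_succ σ (d + 1), mul_pow]; ring
      · simp only [e]
        refine (hW K).2.2.2.2.2 (σ ^ k) (σ ^ (k + d)) σ (σ ^ (d + 1)) (σ ^ (k + (d + 1))) C C' _ _
          (pow_nonneg hσ.le _) (pow_nonneg hσ.le _) hσ.le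
          (pow_le_pow_of_le_one hσ.le hσ1 (by omega)) (le_of_eq ?_) (le_of_eq ?_) ha hC' (hwe i) hWe
        · rw [← pow_succ']; ring_nf
        · rw [← pow_add]
  have key : ∀ (κ : ι →₀ ℕ) (j : ℕ), (κ.degree = 0 ∨ j < κ.degree) →
      We (σ ^ (k + j)) (fun n => eval (w n) (monomial κ (1 : K))) := by
    intro κ j h
    rcases Nat.eq_zero_or_pos κ.degree with h0 | h0
    · rw [(Finsupp.degree_eq_zero_iff κ).1 h0]
      have := (hW K).2.2.2.1 (σ ^ (k + j)) 1
      have e : ∀ n, eval (w n) (monomial (0 : ι →₀ ℕ) (1 : K)) = 1 := by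
        intro n
        rw [eval_monomial, Finsupp.prod_zero_index, mul_one]
      simp only [e]
      exact this
    · have hj : j < κ.degree := by omega
      obtain ⟨d, hd⟩ : ∃ d, κ.degree = d + 1 := ⟨κ.degree - 1, by omega⟩
      refine (hW K).2.2.1 (σ ^ (k + d)) (σ ^ (k + j)) _ (pow_nonneg hσ.le _)
        (pow_le_pow_of_le_one hσ.le hσ1 (by omega)) (mono d κ hd).2
  have fin : ∀ j : ℕ, (∀ κ ∈ G.support, κ.degree = 0 ∨ j < κ.degree) →
      We (σ ^ (k + j)) (fun n => eval (w n) G) := by
    intro j h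
    have e : (fun n => eval (w n) G) =
        fun n => ∑ κ ∈ G.support, coeff κ G * eval (w n) (monomial κ 1) := by
      funext n
      exact eval_sum (w n) G
    rw [e]
    refine we_sum hW _ _ _ fun κ hκ => ?_
    exact (hW K).2.1 _ _ _ (key κ j (h κ hκ))
  refine ⟨?_, fun hG => ?_⟩
  · have := fin 0 (fun κ _ => Nat.eq_zero_or_pos _)
    simpa using this
  · refine fin 1 fun κ hκ => Or.inr ?_
    have := (mem_pow_idealOfVars_iff 2 G).1 hG κ hκ
    omega

end Pool.Agent.Q124.EC_WEV
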