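import Pool.Agent.Q16.SQ.Stm

set_option autoImplicit false
noncomputable section
open scoped BigOperators
open Pool.Agent.Helper549.Tri

namespace Q16.SQ

theorem t_IDENT : S_IDENT := by
  intro N ℓ θ S A κ β h
  have hθ : ∀ k, θ k < Real.pi := by
    have h0 := h.tpos 0
    have h1 := h.tpos 1
    have h2 := h.tpos 2
    have hs := h.tsum
    intro k
    fin_cases k
    · show θ 0 < Real.pi; linarith
    · show θ 1 < Real.pi; linarith
    · show θ 2 < Real.pi; linarith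
  have hA : ∀ k, A k < Real.pi := by
    have h0 := h.Apos 0
    have h1 := h.Apos 1
    have h2 := h.Apos 2
    have hs := h.Asum
    intro k
    fin_cases k
    · show A 0 < Real.pi; linarith
    · show A 1 < Real.pi; linarith
    · show A 2 < Real.pi; linarith
  have sp : ∀ k, 0 < Real.sin (θ k) := fun k => Real.sin_pos_of_pos_of_lt_pi (h.tpos k) (hθ k)
  have Tp : ∀ k, 0 < Real.sin (A k) := fun k => Real.sin_pos_of_pos_of_lt_pi (h.Apos k) (hA k)
  obtain ⟨c, hc⟩ : ∃ c : ℝ, c = ℓ 0 / Real.sin (θ 0) := ⟨_, rfl⟩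
  obtain ⟨d, hd⟩ : ∃ d : ℝ, d = S 0 / Real.sin (A 0) := ⟨_, rfl⟩
  have cp : 0 < c := by rw [hc]; exact div_pos (h.lpos 0) (sp 0)
  have dp : 0 < d := by rw [hd]; exact div_pos (h.Spos 0) (Tp 0)
  have hl : ∀ k, ℓ k = c * Real.sin (θ k) := by
    intro k
    rw [hc, div_mul_eq_mul_div, eq_div_iff (sp 0).ne']
    exact h.sinet k 0
  have hS : ∀ k, S k = d * Real.sin (A k) := by
    intro k
    rw [hd, div_mul_eq_mul_div, eq_div_iff (Tp 0).ne']
    exact h.sineT k 0
  have ar := h.area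
  rw [hl 0, hl 1, hS 0, hS 1] at ar
  have ar' : (N : ℝ) * c ^ 2 * (Real.sin (θ 0) * Real.sin (θ 1) * Real.sin (θ 2)) =
      d ^ 2 * (Real.sin (A 0) * Real.sin (A 1) * Real.sin (A 2)) := by
    linear_combination ar
  constructor
  · intro j
    have e : d * Real.sin (A j) = c * ∑ k, (β j k : ℝ) * Real.sin (θ k) := by
      rw [← hS, h.side j, Finset.mul_sum]
      refine Finset.sum_congr rfl fun k _ => ?_
      rw [hl k]
      ring
    obtain ⟨Z, hZ⟩ : ∃ Z : ℝ, Z = ∑ k, (β j k : ℝ) * Real.sin (θ k) := ⟨_, rfl⟩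
    rw [← hZ] at e ⊢
    have hd2 : d ^ 2 ≠ 0 := (pow_pos dp 2).ne'
    apply mul_left_cancel₀ hd2
    linear_combination Z ^ 2 * ar' + (N : ℝ) * (Real.sin (θ 0) * Real.sin (θ 1) * Real.sin (θ 2)) *
      (d * Real.sin (A j) + c * Z) * e
  · intro hAt j
    have P0 : Real.sin (θ 0) * Real.sin (θ 1) * Real.sin (θ 2) ≠ 0 :=
      (mul_pos (mul_pos (sp 0) (sp 1)) (sp 2)).ne'
    rw [hAt 0, hAt 1, hAt 2] at ar'
    have e := mul_right_cancel₀ P0 ar'
    have e2 : d = Real.sqrt N * c := by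
      have h1 : d ^ 2 = (Real.sqrt N * c) ^ 2 := by
        rw [mul_pow, Real.sq_sqrt (Nat.cast_nonneg N)]
        exact e.symm
      exact (pow_left_inj₀ dp.le (mul_nonneg (Real.sqrt_nonneg _) cp.le) two_ne_zero).1 h1
    rw [hS j, hl j, hAt j, e2]
    ring

end Q16.SQ
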