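import Pool.Agent.Q16.SQ.Stm

set_option autoImplicit false
noncomputable section
open scoped BigOperators
open Pool.Agent.Helper549.Tri

namespace Q16.SQ

lemma TA1.root (r : ℚ) : IsAlgebraic ℚ (Complex.exp ((r : ℂ) * Real.pi * Complex.I)) := by
  have h : (Complex.exp ((r : ℂ) * Real.pi * Complex.I)) ^ (2 * r.den) = 1 := by
    rw [← Complex.exp_nat_mul, Complex.exp_eq_one_iff]
    refine ⟨r.num, ?_⟩
    have hd : (r.den : ℂ) ≠ 0 := by exact_mod_cast r.den_nz
    have hr : (r : ℂ) * r.den = r.num := by exact_mod_cast Rat.mul_den_eq_num r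
    push_cast
    linear_combination 2 * Real.pi * Complex.I * hr
  refine IsAlgebraic.of_pow (n := 2 * r.den) (by have := r.pos; omega) ?_
  rw [h]
  exact isAlgebraic_one

lemma TA1.const {c : ℂ} (hc : IsAlgebraic ℚ c) : TA (fun _ => c) := by
  refine ⟨0, Polynomial.C ⟨c, (mem_algebraicClosure_iff).2 hc⟩, fun x => ?_⟩
  rw [Polynomial.aeval_C, pow_zero, mul_one]
  rfl

lemma TA1.add {f g : ℝ → ℂ} (hf : TA f) (hg : TA g) : TA (fun x => f x + g x) := by
  obtain ⟨n, P, hP⟩ := hf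
  obtain ⟨m, Q, hQ⟩ := hg
  refine ⟨n + m, P * Polynomial.X ^ m + Q * Polynomial.X ^ n, fun x => ?_⟩
  rw [map_add, map_mul, map_mul, map_pow, map_pow, Polynomial.aeval_X, ← hP, ← hQ]
  ring

lemma TA1.mul {f g : ℝ → ℂ} (hf : TA f) (hg : TA g) : TA (fun x => f x * g x) := by
  obtain ⟨n, P, hP⟩ := hf
  obtain ⟨m, Q, hQ⟩ := hg
  refine ⟨n + m, P * Q, fun x => ?_⟩
  rw [map_mul, ← hP, ← hQ]
  ring

lemma TA1.expm (m : ℤ) : TA (fun x => Complex.exp ((m : ℂ) * x * Complex.I)) := by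
  obtain ⟨k, rfl | rfl⟩ := m.eq_nat_or_neg
  · refine ⟨0, Polynomial.X ^ k, fun x => ?_⟩
    show Complex.exp ((((k : ℕ) : ℤ) : ℂ) * x * Complex.I) * Complex.exp (x * Complex.I) ^ 0 = _
    rw [map_pow, Polynomial.aeval_X, pow_zero, mul_one, ← Complex.exp_nat_mul]
    congr 1
    push_cast
    ring
  · refine ⟨k, 1, fun x => ?_⟩
    rw [map_one, ← Complex.exp_nat_mul, ← Complex.exp_add, Complex.exp_eq_one_iff]
    refine ⟨0, ?_⟩
    push_cast
    ring

lemma TA1.alI : IsAlgebraic ℚ (Complex.I) := by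
  refine IsAlgebraic.of_pow (n := 4) (by norm_num) ?_
  rw [Complex.I_pow_four]
  exact isAlgebraic_one

lemma TA1.sine (m : ℤ) (r : ℚ) : TA (fun x => ((Real.sin (m * x + r * Real.pi) : ℝ) : ℂ)) := by
  have e : (fun x : ℝ => ((Real.sin (m * x + r * Real.pi) : ℝ) : ℂ)) = fun x : ℝ =>
      ((Complex.I / 2) * Complex.exp (((-r : ℚ) : ℂ) * Real.pi * Complex.I)) *
        Complex.exp ((((-m : ℤ) : ℂ)) * x * Complex.I) +
      (-(Complex.I / 2) * Complex.exp ((r : ℂ) * Real.pi * Complex.I)) *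
        Complex.exp ((m : ℂ) * x * Complex.I) := by
    funext x
    rw [Complex.ofReal_sin, Complex.sin, mul_assoc (Complex.I / 2), ← Complex.exp_add,
      mul_assoc (-(Complex.I / 2)), ← Complex.exp_add]
    have e1 : -((((m : ℝ) * x + (r : ℝ) * Real.pi : ℝ) : ℂ)) * Complex.I =
        ((-r : ℚ) : ℂ) * Real.pi * Complex.I + ((-m : ℤ) : ℂ) * x * Complex.I := by
      push_cast
      ring
    have e2 : ((((m : ℝ) * x + (r : ℝ) * Real.pi : ℝ) : ℂ)) * Complex.I =
        (r : ℂ) * Real.pi * Complex.I + (m : ℂ) * x * Complex.I := by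
      push_cast
      ring
    rw [e1, e2]
    ring
  rw [e]
  have h2 : IsAlgebraic ℚ (Complex.I / 2) := by
    rw [div_eq_mul_inv]
    exact TA1.alI.mul (IsAlgebraic.inv (by exact_mod_cast isAlgebraic_natCast (R := ℚ) (A := ℂ) 2))
  exact TA1.add (TA1.mul (TA1.const (h2.mul (TA1.root (-r)))) (TA1.expm (-m)))
    (TA1.mul (TA1.const (h2.neg.mul (TA1.root r))) (TA1.expm m))

theorem t_TA1 : S_TA1 := by
  refine ⟨fun c hc => TA1.const hc, fun f g hf hg => TA1.add hf hg, fun f g hf hg => TA1.mul hf hg,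
    fun m r => TA1.sine m r, ?_⟩
  rintro f ⟨n, P, hP⟩ x0 hx0 hf0 x
  have h1 : Polynomial.aeval (Complex.exp (x0 * Complex.I)) P = 0 := by
    rw [← hP x0, hf0, zero_mul]
  have hP0 : P = 0 := by
    by_contra hne
    have : Algebra.IsAlgebraic ℚ ↥(algebraicClosure ℚ ℂ) := by
      have h := algebraicClosure.isAlgebraic ℚ ℂ
      have e : (DivisionRing.toRatAlgebra : Algebra ℚ ↥(algebraicClosure ℚ ℂ)) =
          (algebraicClosure ℚ ℂ).algebra' := Subsingleton.elim _ _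
      rw [e]
      exact h
    exact hx0 (IsAlgebraic.restrictScalars ℚ ⟨P, hne, h1⟩)
  have h2 := hP x
  rw [hP0, map_zero] at h2
  rcases mul_eq_zero.1 h2 with h3 | h3
  · exact h3
  · exact absurd h3 (pow_ne_zero _ (Complex.exp_ne_zero _))

end Q16.SQ
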