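import Mathlib

/-!
# Signed intervals with few alternations

A code is a triple `(i, j, S)` with `i < j` and `S ⊆ (i, j)`; it stands for a monotone curve that
starts at the vertex `i`, ends at the vertex `j`, passes above the vertices in `S` and below the
other vertices strictly between `i` and `j`.  We bound the number of codes in a family in which no
two members change their relative position more than `k` times.
-/

namespace Pool.Agent.Q124.SigInt

/-- A code `(i, j, S)`. -/
abbrev Code := ℕ × ℕ × Finset ℕ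

/-- The position of the curve relative to the vertex `x`. -/
def val (e : Code) (x : ℕ) : ℤ :=
  if e.1 < x ∧ x < e.2.1 then (if x ∈ e.2.2 then 1 else -1) else 0

/-- The vertex `x` lies in both closed intervals. -/
def Common (e f : Code) (x : ℕ) : Prop := e.1 ≤ x ∧ f.1 ≤ x ∧ x ≤ e.2.1 ∧ x ≤ f.2.1

/-- The curve `e` is above `f` at `x` (if `s = true`), or below `f` (if `s = false`). -/
def Above (e f : Code) (s : Bool) (x : ℕ) : Prop :=
  Common e f x ∧ (s = true → val f x < val e x) ∧ (s = false → val e x < val f x)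

/-- The relative position of `e` and `f` changes at least `m` times at vertices `≥ a`, beginning
with the position `s`. -/
def Alt (e f : Code) : ℕ → Bool → ℕ → Prop
  | 0, s, a => ∃ x, a ≤ x ∧ Above e f s x
  | m + 1, s, a => ∃ x, a ≤ x ∧ Above e f s x ∧ Alt e f m (!s) (x + 1)

/-- No two members change their relative position at least `K` times. -/
def Good (K : ℕ) (F : Finset Code) : Prop :=
  ∀ e ∈ F, ∀ f ∈ F, ∀ s, ¬ Alt e f K s 0

/-- Codes on the vertices `b, …, N`. -/
def Valid (b N : ℕ) (e : Code) : Prop :=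
  b ≤ e.1 ∧ e.1 < e.2.1 ∧ e.2.1 ≤ N ∧ ∀ x ∈ e.2.2, e.1 < x ∧ x < e.2.1

theorem Alt.mono {e f : Code} {m : ℕ} {s : Bool} {a a' : ℕ} (h : Alt e f m s a) (ha : a' ≤ a) :
    Alt e f m s a' := by
  cases m with
  | zero =>
    obtain ⟨x, h1, h2⟩ := h
    exact ⟨x, ha.trans h1, h2⟩
  | succ m =>
    obtain ⟨x, h1, h2⟩ := h
    exact ⟨x, ha.trans h1, h2⟩

/-- `e` is a code that becomes `g` if the vertices `b` and `b + 1` are identified. -/
def Lift (b : ℕ) (g e : Code) : Prop :=
  b + 1 ≤ g.1 ∧ e.2.1 = g.2.1 ∧ (e.1 = g.1 ∨ (e.1 = b ∧ g.1 = b + 1)) ∧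
    ∀ x, b + 2 ≤ x → val e x = val g x

theorem above_lift {b : ℕ} {g h e f : Code} (hg : Lift b g e) (hh : Lift b h f) {s : Bool}
    {x : ℕ} (hx : Above g h s x) : Above e f s x := by
  obtain ⟨g1, g2, g3, g4⟩ := hg
  obtain ⟨h1, h2, h3, h4⟩ := hh
  obtain ⟨⟨c1, c2, c3, c4⟩, hs⟩ := hx
  by_cases hxb : b + 2 ≤ x
  · refine ⟨⟨?_, ?_, by omega, by omega⟩, ?_⟩
    · rcases g3 with g3 | g3 <;> omega
    · rcases h3 with h3 | h3 <;> omega
    · rw [g4 x hxb, h4 x hxb]
      exact hs
  · have e1 : g.1 = x := by omega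
    have e2 : h.1 = x := by omega
    have v1 : val g x = 0 := by
      unfold val
      rw [if_neg]
      omega
    have v2 : val h x = 0 := by
      unfold val
      rw [if_neg]
      omega
    rw [v1, v2] at hs
    cases s with
    | true => exact absurd (hs.1 rfl) (lt_irrefl _)
    | false => exact absurd (hs.2 rfl) (lt_irrefl _)

theorem alt_lift {b : ℕ} {g h e f : Code} (hg : Lift b g e) (hh : Lift b h f) (m : ℕ) :
    ∀ (s : Bool) (a : ℕ), Alt g h m s a → Alt e f m s a := by
  induction m with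
  | zero =>
    rintro s a ⟨x, h1, h2⟩
    exact ⟨x, h1, above_lift hg hh h2⟩
  | succ m ih =>
    rintro s a ⟨x, h1, h2, h3⟩
    exact ⟨x, h1, above_lift hg hh h2, ih _ _ h3⟩

/-- Positions of the alternations of codes that start at `b + 1`. -/
theorem alt_of_start {b : ℕ} {g h : Code} (hg : g.1 = b + 1) (hh : h.1 = b + 1) {m : ℕ}
    {s : Bool} (ha : Alt g h m s 0) : Alt g h m s (b + 2) := by
  have key : ∀ x, Above g h s x → b + 2 ≤ x := by
    intro x hx
    obtain ⟨⟨c1, c2, c3, c4⟩, hs⟩ := hx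
    by_contra hxb
    have e1 : g.1 = x := by omega
    have e2 : h.1 = x := by omega
    have v1 : val g x = 0 := by
      unfold val
      rw [if_neg]
      omega
    have v2 : val h x = 0 := by
      unfold val
      rw [if_neg]
      omega
    rw [v1, v2] at hs
    cases s with
    | true => exact absurd (hs.1 rfl) (lt_irrefl _)
    | false => exact absurd (hs.2 rfl) (lt_irrefl _)
  cases m with
  | zero =>
    obtain ⟨x, -, h2⟩ := ha
    exact ⟨x, key x h2, h2⟩
  | succ m =>
    obtain ⟨x, -, h2, h3⟩ := ha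
    exact ⟨x, key x h2, h2, h3⟩

/-- The two codes with first vertex `b` and the code with first vertex `b + 1`. -/
def lp (b : ℕ) (g : Code) : Code := (b, g.2.1, insert (b + 1) g.2.2)

/-- The code starts at `b` and passes below `b + 1`. -/
def lm (b : ℕ) (g : Code) : Code := (b, g.2.1, g.2.2)

theorem lift_lp {b : ℕ} {g : Code} (hg : g.1 = b + 1) : Lift b g (lp b g) := by
  refine ⟨by omega, rfl, Or.inr ⟨rfl, hg⟩, fun x hx => ?_⟩
  unfold val lp
  have h1 : (b < x ∧ x < g.2.1) ↔ (g.1 < x ∧ x < g.2.1) := by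
    constructor <;> rintro ⟨h, h'⟩ <;> exact ⟨by omega, h'⟩
  have h2 : x ∈ insert (b + 1) g.2.2 ↔ x ∈ g.2.2 := by
    rw [Finset.mem_insert]
    constructor
    · rintro (h | h)
      · omega
      · exact h
    · exact Or.inr
  simp only [h1, h2]

theorem lift_lm {b : ℕ} {g : Code} (hg : g.1 = b + 1) : Lift b g (lm b g) := by
  refine ⟨by omega, rfl, Or.inr ⟨rfl, hg⟩, fun x hx => ?_⟩
  unfold val lm
  have h1 : (b < x ∧ x < g.2.1) ↔ (g.1 < x ∧ x < g.2.1) := by
    constructor <;> rintro ⟨h, h'⟩ <;> exact ⟨by omega, h'⟩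
  simp only [h1]

theorem lift_self {b : ℕ} {g : Code} (hg : b + 1 ≤ g.1) : Lift b g g :=
  ⟨hg, rfl, Or.inl rfl, fun _ _ => rfl⟩

/-- The family `{g | lp b g ∈ F}`-type sets are described by their elements. -/
theorem alt_extend {b : ℕ} {g h e f : Code} (hg : Lift b g e) (hh : Lift b h f)
    (hg1 : g.1 = b + 1) (hh1 : h.1 = b + 1) {m : ℕ} {s : Bool} (ha : Alt g h m s 0)
    (habove : Above e f (!s) (b + 1)) : Alt e f (m + 1) (!s) 0 := by
  refine ⟨b + 1, Nat.zero_le _, habove, ?_⟩
  rw [Bool.not_not]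
  exact alt_lift hg hh m _ _ (alt_of_start hg1 hh1 ha)

/-- Distinct codes with the same start are comparable at some vertex. -/
theorem exists_above {b N : ℕ} {e f : Code} (he : Valid b N e) (hf : Valid b N f)
    (he1 : e.1 = b) (hf1 : f.1 = b) (hne : e ≠ f) : ∃ s, Alt e f 0 s 0 := by
  obtain ⟨-, he2, -, he4⟩ := he
  obtain ⟨-, hf2, -, hf4⟩ := hf
  obtain ⟨i, j, S⟩ := e
  obtain ⟨i', j', S'⟩ := f
  simp only at he1 hf1 he2 hf2 he4 hf4
  subst he1
  subst hf1
  have key : ∀ x, Common (i', j, S) (i', j', S') x → val (i', j, S) x ≠ val (i', j', S') x →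
      ∃ s, Alt (i', j, S) (i', j', S') 0 s 0 := by
    intro x hc hv
    rcases lt_or_gt_of_ne hv with h | h
    · exact ⟨false, x, Nat.zero_le _, hc, fun h' => absurd h' (by simp), fun _ => h⟩
    · exact ⟨true, x, Nat.zero_le _, hc, fun _ => h, fun h' => absurd h' (by simp)⟩
  rcases lt_trichotomy j j' with hj | hj | hj
  · refine key j ⟨he2.le, he2.le, le_rfl, hj.le⟩ ?_
    unfold val
    simp only [lt_irrefl, and_false, if_false, hj, he2, and_self, if_true]
    split_ifs <;> decide
  · subst hj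
    have hS : S ≠ S' := fun h => hne (by rw [h])
    obtain ⟨x, hx⟩ : ∃ x, ¬ (x ∈ S ↔ x ∈ S') := by
      by_contra hno
      push Not at hno
      exact hS (Finset.ext hno)
    by_cases hxS : x ∈ S
    · have hxS' : x ∉ S' := fun h => hx ⟨fun _ => h, fun _ => hxS⟩
      obtain ⟨h1, h2⟩ := he4 x hxS
      refine key x ⟨h1.le, h1.le, h2.le, h2.le⟩ ?_
      unfold val
      simp only [h1, h2, and_self, if_true, hxS, hxS', if_false]
      decide
    · have hxS' : x ∈ S' := by
        by_contra h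
        exact hx ⟨fun h' => absurd h' hxS, fun h' => absurd h' h⟩
      obtain ⟨h1, h2⟩ := hf4 x hxS'
      refine key x ⟨h1.le, h1.le, h2.le, h2.le⟩ ?_
      unfold val
      simp only [h1, h2, and_self, if_true, hxS, hxS', if_false]
      decide
  · refine key j' ⟨hf2.le, hf2.le, hj.le, le_rfl⟩ ?_
    unfold val
    simp only [lt_irrefl, and_false, if_false, hj, hf2, and_self, if_true]
    split_ifs <;> decide

theorem not_above_self {e : Code} {s : Bool} {x : ℕ} : ¬ Above e e s x := by
  rintro ⟨-, h⟩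
  cases s with
  | true => exact absurd (h.1 rfl) (lt_irrefl _)
  | false => exact absurd (h.2 rfl) (lt_irrefl _)

theorem not_alt_self {e : Code} {m : ℕ} {s : Bool} {a : ℕ} : ¬ Alt e e m s a := by
  cases m with
  | zero =>
    rintro ⟨x, -, h⟩
    exact not_above_self h
  | succ m =>
    rintro ⟨x, -, h, -⟩
    exact not_above_self h

theorem val_lp {b : ℕ} {g : Code} (h : b + 2 ≤ g.2.1) : val (lp b g) (b + 1) = 1 := by
  unfold val lp
  rw [if_pos, if_pos]
  · exact Finset.mem_insert_self _ _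
  · exact ⟨by omega, by simp only; omega⟩

theorem val_lm {b : ℕ} {g : Code} (h : b + 2 ≤ g.2.1) (hS : b + 1 ∉ g.2.2) :
    val (lm b g) (b + 1) = -1 := by
  unfold val lm
  rw [if_pos, if_neg]
  · exact hS
  · exact ⟨by omega, by simp only; omega⟩

theorem val_start {b : ℕ} {g : Code} (h : g.1 = b + 1) : val g (b + 1) = 0 := by
  unfold val
  rw [if_neg]
  omega

/-- Identification of the vertices `b` and `b + 1`. -/
theorem step {b N K : ℕ} {F : Finset Code} (hF : ∀ e ∈ F, Valid b N e) (hK : Good K F) :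
    ∃ G U1 U2 : Finset Code, F.card ≤ 1 + G.card + U1.card + U2.card ∧
      (∀ e ∈ G, Valid (b + 1) N e) ∧ (∀ e ∈ U1, Valid (b + 1) N e ∧ e.1 = b + 1) ∧
      (∀ e ∈ U2, Valid (b + 1) N e ∧ e.1 = b + 1) ∧ Good K G ∧
      (∀ m, K = m + 1 → Good m U1 ∧ Good m U2) ∧
      ((∀ e ∈ F, e.1 = b) → (∀ e ∈ G, e.1 = b + 1) ∧ U2 = ∅) := by
  classical
  set E0 := F.filter (fun e => e.1 = b ∧ e.2.1 = b + 1) with hE0
  set Fp := F.filter (fun e => e.1 = b ∧ e.2.1 ≠ b + 1 ∧ b + 1 ∈ e.2.2) with hFp
  set Fm := F.filter (fun e => e.1 = b ∧ e.2.1 ≠ b + 1 ∧ b + 1 ∉ e.2.2) with hFm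
  set F0 := F.filter (fun e => e.1 = b + 1) with hF0
  set R := F.filter (fun e => b + 2 ≤ e.1) with hR
  set cp : Code → Code := fun e => (b + 1, e.2.1, e.2.2.erase (b + 1)) with hcp
  set cm : Code → Code := fun e => (b + 1, e.2.1, e.2.2) with hcm
  have hcover : F ⊆ E0 ∪ (Fp ∪ (Fm ∪ (F0 ∪ R))) := by
    intro e he
    have hv := hF e he
    simp only [hE0, hFp, hFm, hF0, hR, Finset.mem_union, Finset.mem_filter, he, true_and]
    by_cases h1 : e.1 = b
    · by_cases h2 : e.2.1 = b + 1
      · exact Or.inl ⟨h1, h2⟩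
      · by_cases h3 : b + 1 ∈ e.2.2
        · exact Or.inr (Or.inl ⟨h1, h2, h3⟩)
        · exact Or.inr (Or.inr (Or.inl ⟨h1, h2, h3⟩))
    · by_cases h2 : e.1 = b + 1
      · exact Or.inr (Or.inr (Or.inr (Or.inl h2)))
      · refine Or.inr (Or.inr (Or.inr (Or.inr ?_)))
        have := hv.1
        omega
  have hcard : F.card ≤ E0.card + (Fp.card + (Fm.card + (F0.card + R.card))) := by
    refine (Finset.card_le_card hcover).trans ((Finset.card_union_le _ _).trans ?_)
    refine Nat.add_le_add_left ((Finset.card_union_le _ _).trans ?_) _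
    refine Nat.add_le_add_left ((Finset.card_union_le _ _).trans ?_) _
    exact Nat.add_le_add_left (Finset.card_union_le _ _) _
  have hE0c : E0.card ≤ 1 := by
    rw [Finset.card_le_one]
    intro e he f hf
    simp only [hE0, Finset.mem_filter] at he hf
    obtain ⟨he1, he2, he3⟩ := he
    obtain ⟨hf1, hf2, hf3⟩ := hf
    have hes : e.2.2 = ∅ := by
      rw [Finset.eq_empty_iff_forall_notMem]
      intro x hx
      have := (hF e he1).2.2.2 x hx
      omega
    have hfs : f.2.2 = ∅ := by
      rw [Finset.eq_empty_iff_forall_notMem]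
      intro x hx
      have := (hF f hf1).2.2.2 x hx
      omega
    exact Prod.ext (he2.trans hf2.symm) (Prod.ext (he3.trans hf3.symm) (hes.trans hfs.symm))
  have hcpc : (Fp.image cp).card = Fp.card := by
    refine Finset.card_image_of_injOn ?_
    intro e he f hf hef
    simp only [hFp, Finset.coe_filter, Set.mem_ofPred_eq] at he hf
    simp only [hcp, Prod.mk.injEq, true_and] at hef
    refine Prod.ext (he.2.1.trans hf.2.1.symm) (Prod.ext hef.1 ?_)
    rw [← Finset.insert_erase he.2.2.2, ← Finset.insert_erase hf.2.2.2, hef.2]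
  have hcmc : (Fm.image cm).card = Fm.card := by
    refine Finset.card_image_of_injOn ?_
    intro e he f hf hef
    simp only [hFm, Finset.coe_filter, Set.mem_ofPred_eq] at he hf
    simp only [hcm, Prod.mk.injEq, true_and] at hef
    exact Prod.ext (he.2.1.trans hf.2.1.symm) (Prod.ext hef.1 hef.2)
  -- descriptions of the elements
  have hAp : ∀ g ∈ Fp.image cp, g.1 = b + 1 ∧ lp b g ∈ F ∧ b + 1 ∉ g.2.2 ∧ b + 2 ≤ g.2.1 ∧
      Valid (b + 1) N g := by
    intro g hg
    obtain ⟨e, he, rfl⟩ := Finset.mem_image.1 hg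
    simp only [hFp, Finset.mem_filter] at he
    obtain ⟨h1, h2, h3, h4⟩ := he
    obtain ⟨v1, v2, v3, v4⟩ := hF e h1
    have h5 : b + 2 ≤ e.2.1 := by omega
    have h6 : lp b (cp e) = e := by
      show (b, e.2.1, insert (b + 1) (e.2.2.erase (b + 1))) = e
      rw [Finset.insert_erase h4]
      exact Prod.ext h2.symm rfl
    refine ⟨rfl, by rw [h6]; exact h1, Finset.notMem_erase _ _, h5, le_rfl, by
      show b + 1 < e.2.1; omega, v3, ?_⟩
    intro x hx
    obtain ⟨hx1, hx2⟩ := Finset.mem_erase.1 hx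
    have := v4 x hx2
    show b + 1 < x ∧ x < e.2.1
    omega
  have hAm : ∀ g ∈ Fm.image cm, g.1 = b + 1 ∧ lm b g ∈ F ∧ b + 1 ∉ g.2.2 ∧ b + 2 ≤ g.2.1 ∧
      Valid (b + 1) N g := by
    intro g hg
    obtain ⟨e, he, rfl⟩ := Finset.mem_image.1 hg
    simp only [hFm, Finset.mem_filter] at he
    obtain ⟨h1, h2, h3, h4⟩ := he
    obtain ⟨v1, v2, v3, v4⟩ := hF e h1
    have h5 : b + 2 ≤ e.2.1 := by omega
    have h6 : lm b (cm e) = e := Prod.ext h2.symm rfl
    refine ⟨rfl, by rw [h6]; exact h1, h4, h5, le_rfl, by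
      show b + 1 < e.2.1; omega, v3, ?_⟩
    intro x hx
    have := v4 x hx
    have hne : x ≠ b + 1 := fun h => h4 (h ▸ hx)
    show b + 1 < x ∧ x < e.2.1
    omega
  have hA0 : ∀ g ∈ F0, g.1 = b + 1 ∧ g ∈ F ∧ b + 1 ∉ g.2.2 ∧ b + 2 ≤ g.2.1 ∧
      Valid (b + 1) N g := by
    intro g hg
    simp only [hF0, Finset.mem_filter] at hg
    obtain ⟨h1, h2⟩ := hg
    obtain ⟨v1, v2, v3, v4⟩ := hF g h1
    refine ⟨h2, h1, ?_, by omega, by omega, v2, v3, v4⟩
    intro h
    have := v4 _ h
    omega
  have hRR : ∀ g ∈ R, b + 2 ≤ g.1 ∧ g ∈ F ∧ Valid (b + 1) N g := by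
    intro g hg
    simp only [hR, Finset.mem_filter] at hg
    obtain ⟨h1, h2⟩ := hg
    obtain ⟨v1, v2, v3, v4⟩ := hF g h1
    exact ⟨h2, h1, by omega, v2, v3, v4⟩
  set Ap := Fp.image cp with hApd
  set Am := Fm.image cm with hAmd
  refine ⟨(Ap ∪ (Am ∪ F0)) ∪ R, Ap ∩ (Am ∪ F0), Am ∩ F0, ?_, ?_, ?_, ?_, ?_, ?_, ?_⟩
  · have h1 := Finset.card_union_add_card_inter Ap (Am ∪ F0)
    have h2 := Finset.card_union_add_card_inter Am F0
    have h3 : ((Ap ∪ (Am ∪ F0)) ∪ R).card = (Ap ∪ (Am ∪ F0)).card + R.card := by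
      refine Finset.card_union_of_disjoint ?_
      rw [Finset.disjoint_left]
      intro g hg hg'
      have h4 := (hRR g hg').1
      have h5 : g.1 = b + 1 := by
        rcases Finset.mem_union.1 hg with hg | hg
        · exact (hAp g hg).1
        · rcases Finset.mem_union.1 hg with hg | hg
          · exact (hAm g hg).1
          · exact (hA0 g hg).1
      omega
    omega
  · intro g hg
    rcases Finset.mem_union.1 hg with hg | hg
    · rcases Finset.mem_union.1 hg with hg | hg
      · exact (hAp g hg).2.2.2.2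
      · rcases Finset.mem_union.1 hg with hg | hg
        · exact (hAm g hg).2.2.2.2
        · exact (hA0 g hg).2.2.2.2
    · exact (hRR g hg).2.2
  · intro g hg
    have := hAp g (Finset.mem_inter.1 hg).1
    exact ⟨this.2.2.2.2, this.1⟩
  · intro g hg
    have := hAm g (Finset.mem_inter.1 hg).1
    exact ⟨this.2.2.2.2, this.1⟩
  · have hlift : ∀ g ∈ (Ap ∪ (Am ∪ F0)) ∪ R, ∃ e ∈ F, Lift b g e := by
      intro g hg
      rcases Finset.mem_union.1 hg with hg | hg
      · rcases Finset.mem_union.1 hg with hg | hg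
        · exact ⟨lp b g, (hAp g hg).2.1, lift_lp (hAp g hg).1⟩
        · rcases Finset.mem_union.1 hg with hg | hg
          · exact ⟨lm b g, (hAm g hg).2.1, lift_lm (hAm g hg).1⟩
          · exact ⟨g, (hA0 g hg).2.1, lift_self (by rw [(hA0 g hg).1])⟩
      · exact ⟨g, (hRR g hg).2.1, lift_self (by have := (hRR g hg).1; omega)⟩
    intro g hg h hh s ha
    obtain ⟨e, he, hge⟩ := hlift g hg
    obtain ⟨f, hf, hhf⟩ := hlift h hh
    exact hK e he f hf s (alt_lift hge hhf K s 0 ha)
  · rintro m rfl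
    -- the second lift of an element of `U1`
    have hlow : ∀ g ∈ Am ∪ F0, ∃ e ∈ F, Lift b g e ∧ val e (b + 1) ≤ 0 ∧ e.1 ≤ b + 1 := by
      intro g hg
      rcases Finset.mem_union.1 hg with hg | hg
      · obtain ⟨a1, a2, a3, a4, a5⟩ := hAm g hg
        exact ⟨lm b g, a2, lift_lm a1, by rw [val_lm a4 a3]; norm_num, by
          show b ≤ b + 1; omega⟩
      · obtain ⟨a1, a2, a3, a4, a5⟩ := hA0 g hg
        exact ⟨g, a2, lift_self (by rw [a1]), (val_start a1).le, a1.le⟩
    constructor
    · intro g hg h hh s ha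
      obtain ⟨hg1, hg2⟩ := Finset.mem_inter.1 hg
      obtain ⟨hh1, hh2⟩ := Finset.mem_inter.1 hh
      obtain ⟨a1, a2, a3, a4, a5⟩ := hAp g hg1
      obtain ⟨c1, c2, c3, c4, c5⟩ := hAp h hh1
      obtain ⟨e, he, hge, hev, heb⟩ := hlow g hg2
      obtain ⟨f, hf, hhf, hfv, hfb⟩ := hlow h hh2
      cases s with
      | false =>
        refine hK (lp b g) a2 f hf true (alt_extend (lift_lp a1) hhf a1 c1 ha ?_)
        refine ⟨⟨by show b ≤ b + 1; omega, hfb, by show b + 1 ≤ g.2.1; omega, by
          rw [hhf.2.1]; omega⟩, fun _ => ?_, fun h' => absurd h' (by simp)⟩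
        rw [val_lp a4]
        omega
      | true =>
        refine hK e he (lp b h) c2 false (alt_extend hge (lift_lp c1) a1 c1 ha ?_)
        refine ⟨⟨heb, by show b ≤ b + 1; omega, by rw [hge.2.1]; omega, by
          show b + 1 ≤ h.2.1; omega⟩, fun h' => absurd h' (by simp), fun _ => ?_⟩
        rw [val_lp c4]
        omega
    · intro g hg h hh s ha
      obtain ⟨hg1, hg2⟩ := Finset.mem_inter.1 hg
      obtain ⟨hh1, hh2⟩ := Finset.mem_inter.1 hh
      obtain ⟨a1, a2, a3, a4, a5⟩ := hAm g hg1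
      obtain ⟨c1, c2, c3, c4, c5⟩ := hAm h hh1
      obtain ⟨-, a6, -⟩ := hA0 g hg2
      obtain ⟨-, c6, -⟩ := hA0 h hh2
      cases s with
      | false =>
        refine hK g a6 (lm b h) c2 true
          (alt_extend (lift_self (by rw [a1])) (lift_lm c1) a1 c1 ha ?_)
        refine ⟨⟨a1.le, by show b ≤ b + 1; omega, by omega, by
          show b + 1 ≤ h.2.1; omega⟩, fun _ => ?_, fun h' => absurd h' (by simp)⟩
        rw [val_lm c4 c3, val_start a1]
        norm_num
      | true =>
        refine hK (lm b g) a2 h c6 false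
          (alt_extend (lift_lm a1) (lift_self (by rw [c1])) a1 c1 ha ?_)
        refine ⟨⟨by show b ≤ b + 1; omega, c1.le, by show b + 1 ≤ g.2.1; omega, by
          omega⟩, fun h' => absurd h' (by simp), fun _ => ?_⟩
        rw [val_lm a4 a3, val_start c1]
        norm_num
  · intro hb
    have hF0e : F0 = ∅ := by
      rw [Finset.eq_empty_iff_forall_notMem]
      intro g hg
      have h1 := (hA0 g hg).1
      have h2 := hb g (hA0 g hg).2.1
      omega
    refine ⟨?_, by rw [hF0e, Finset.inter_empty]⟩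
    intro g hg
    rcases Finset.mem_union.1 hg with hg | hg
    · rcases Finset.mem_union.1 hg with hg | hg
      · exact (hAp g hg).1
      · rcases Finset.mem_union.1 hg with hg | hg
        · exact (hAm g hg).1
        · exact (hA0 g hg).1
    · have h1 := (hRR g hg).1
      have h2 := hb g (hRR g hg).2.1
      omega

theorem pascal (m K : ℕ) : ∑ j ∈ Finset.range (K + 1 + 1), (m + 1).choose j =
    ∑ j ∈ Finset.range (K + 1 + 1), m.choose j + ∑ j ∈ Finset.range (K + 1), m.choose j := by
  rw [Finset.sum_range_succ' _ (K + 1), Finset.sum_range_succ' _ (K + 1)]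
  simp only [Nat.choose_succ_succ, Nat.choose_zero_right, Finset.sum_add_distrib]
  ring

/-- Families of codes with the same first vertex. -/
theorem card_start (m : ℕ) : ∀ (K b : ℕ) (F : Finset Code),
    (∀ e ∈ F, Valid b (b + (m + 1)) e) → (∀ e ∈ F, e.1 = b) → Good K F →
    F.card + 1 ≤ 2 * ∑ j ∈ Finset.range (K + 1), m.choose j := by
  have hone : ∀ (m b : ℕ) (F : Finset Code), (∀ e ∈ F, Valid b (b + (m + 1)) e) →
      (∀ e ∈ F, e.1 = b) → Good 0 F → F.card ≤ 1 := by
    intro m b F hF hb hK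
    rw [Finset.card_le_one]
    intro e he f hf
    by_contra hne
    obtain ⟨s, hs⟩ := exists_above (hF e he) (hF f hf) (hb e he) (hb f hf) hne
    exact hK e he f hf s hs
  have hpos : ∀ m K : ℕ, 1 ≤ ∑ j ∈ Finset.range (K + 1), m.choose j := by
    intro m K
    rw [Finset.sum_range_succ']
    simp
  induction m with
  | zero =>
    intro K b F hF hb hK
    have h1 : F.card ≤ 1 := by
      rw [Finset.card_le_one]
      have h2 : ∀ e ∈ F, e = (b, b + 1, ∅) := by
        intro e he
        obtain ⟨v1, v2, v3, v4⟩ := hF e he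
        have h3 := hb e he
        have h4 : e.2.2 = ∅ := by
          rw [Finset.eq_empty_iff_forall_notMem]
          intro x hx
          have := v4 x hx
          omega
        exact Prod.ext h3 (Prod.ext (by show e.2.1 = b + 1; omega) h4)
      intro e he f hf
      rw [h2 e he, h2 f hf]
    have := hpos 0 K
    omega
  | succ m ih =>
    intro K b F hF hb hK
    cases K with
    | zero =>
      have := hone _ b F hF hb hK
      simp only [zero_add, Finset.range_one, Finset.sum_singleton, Nat.choose_zero_right]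
      omega
    | succ K =>
      obtain ⟨G, U1, U2, h1, h2, h3, h4, h5, h6, h7⟩ := step hF hK
      obtain ⟨h8, h9⟩ := h7 hb
      have e1 : b + (m + 1 + 1) = b + 1 + (m + 1) := by ring
      rw [e1] at h2 h3
      have hG := ih (K + 1) (b + 1) G h2 h8 h5
      have hU := ih K (b + 1) U1 (fun e he => (h3 e he).1) (fun e he => (h3 e he).2)
        (h6 K rfl).1
      rw [h9, Finset.card_empty] at h1
      rw [pascal]
      omega

/-- **The bound for families of signed intervals.** -/
theorem card_le (m : ℕ) : ∀ (k b : ℕ) (F : Finset Code),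
    (∀ e ∈ F, Valid b (b + (m + 1)) e) → Good (k + 1) F →
    F.card + m ≤ 4 * ∑ j ∈ Finset.range (k + 1), m.choose (j + 1) + 1 := by
  induction m with
  | zero =>
    intro k b F hF hK
    have h1 : F.card ≤ 1 := by
      rw [Finset.card_le_one]
      have h2 : ∀ e ∈ F, e = (b, b + 1, ∅) := by
        intro e he
        obtain ⟨v1, v2, v3, v4⟩ := hF e he
        have h4 : e.2.2 = ∅ := by
          rw [Finset.eq_empty_iff_forall_notMem]
          intro x hx
          have := v4 x hx
          omega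
        exact Prod.ext (by show e.1 = b; omega) (Prod.ext (by show e.2.1 = b + 1; omega) h4)
      intro e he f hf
      rw [h2 e he, h2 f hf]
    omega
  | succ m ih =>
    intro k b F hF hK
    obtain ⟨G, U1, U2, h1, h2, h3, h4, h5, h6, -⟩ := step hF hK
    have e1 : b + (m + 1 + 1) = b + 1 + (m + 1) := by ring
    rw [e1] at h2 h3 h4
    have hG := ih k (b + 1) G h2 h5
    have hU1 := card_start m k (b + 1) U1 (fun e he => (h3 e he).1) (fun e he => (h3 e he).2)
      (h6 k rfl).1
    have hU2 := card_start m k (b + 1) U2 (fun e he => (h4 e he).1) (fun e he => (h4 e he).2)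
      (h6 k rfl).2
    have e2 : ∑ j ∈ Finset.range (k + 1), (m + 1).choose (j + 1) =
        ∑ j ∈ Finset.range (k + 1), m.choose j + ∑ j ∈ Finset.range (k + 1), m.choose (j + 1) := by
      simp only [Nat.choose_succ_succ, Finset.sum_add_distrib]
    rw [e2]
    omega

end Pool.Agent.Q124.SigInt
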